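import Pool.Agent.H52.KP.Main

set_option autoImplicit false

namespace Pool.Agent.Results.MP_9d526a_co.CoherentRank

/-- `Coherent p q ρ`: every affine dependence of the points `(p_i, q_i)` of `ℝ^d × ℝ^d` annihilates
the numbers `|p_i|² - ρ_i²` and the numbers `|q_i|² - ρ_i²`. -/
def Coherent {d n : ℕ} (p q : Fin n → EuclideanSpace ℝ (Fin d)) (ρ : Fin n → ℝ) : Prop :=
  ∀ a : Fin n → ℝ, ∑ i, a i = 0 → ∑ i, a i • p i = 0 → ∑ i, a i • q i = 0 →
    ∑ i, a i * (‖p i‖ ^ 2 - ρ i ^ 2) = 0 ∧ ∑ i, a i * (‖q i‖ ^ 2 - ρ i ^ 2) = 0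

/-- Kneser's weighted multiplicity inequality for at most `d + 4` balls in `ℝ^d`, and for any number
of balls if the points `(p_i, q_i)` span an affine subspace of dimension at most `d + 3` of
`ℝ^d × ℝ^d` and `Coherent p q ρ` holds. -/
theorem result (d n : ℕ) (p q : Fin n → EuclideanSpace ℝ (Fin d)) (ρ : Fin n → ℝ)
    (hρ : ∀ i, 0 < ρ i) (hpq : ∀ i j, dist (q i) (q j) ≤ dist (p i) (p j))
    (h : n ≤ d + 4 ∨
      (Module.finrank ℝ (vectorSpan ℝ (Set.range fun i => (p i, q i))) ≤ d + 3 ∧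
        Coherent p q ρ))
    (τ : Fin n → ℝ) (hτ : Antitone τ) :
    ∑ k : Fin n, τ k *
        (MeasureTheory.volume
          {x : EuclideanSpace ℝ (Fin d) |
            k.val + 1 ≤ (Finset.univ.filter (fun i => dist x (q i) ≤ ρ i)).card}).toReal
      ≤
    ∑ k : Fin n, τ k *
        (MeasureTheory.volume
          {x : EuclideanSpace ℝ (Fin d) |
            k.val + 1 ≤ (Finset.univ.filter (fun i => dist x (p i) ≤ ρ i)).card}).toReal :=
  Pool.Agent.H52.KP.kneser_main d n p q ρ hρ hpq h τ hτ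

end Pool.Agent.Results.MP_9d526a_co.CoherentRank
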