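import Pool.Agent.H65k.Final

set_option autoImplicit false

namespace Pool.Agent.Results.MP_9d526a_co.JointRank

/-- There is a motion in `ℝ^d × ℝ^2`, continuous on `[0,1]` and differentiable on `(0,1)`, from the
points `(p_i, 0)` to the points `(q_i, 0)`, along which no pairwise distance increases. -/
def LiftedMotion {d n : ℕ} (p q : Fin n → EuclideanSpace ℝ (Fin d)) : Prop :=
  ∃ c : ℝ → Fin n → WithLp 2 (EuclideanSpace ℝ (Fin d) × EuclideanSpace ℝ (Fin 2)),
    ContinuousOn c (Set.Icc 0 1) ∧ (∀ t ∈ Set.Ioo (0 : ℝ) 1, DifferentiableAt ℝ c t) ∧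
    (∀ i, c 0 i = WithLp.toLp 2 (p i, 0)) ∧ (∀ i, c 1 i = WithLp.toLp 2 (q i, 0)) ∧
    ∀ i j, AntitoneOn (fun t => dist (c t i) (c t j)) (Set.Icc 0 1)

/-- Kneser's weighted multiplicity inequality for all contractions of ball systems with `d ≤ 2`, for
all contractions with `n ≤ d + 3`, more generally for all contractions whose joint configuration
`(p_i, q_i)` spans an affine subspace of dimension at most `d + 2` of `ℝ^d × ℝ^d`, and for all
contractions that are realised by a motion in `ℝ^(d+2)` along which no distance increases. -/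
theorem result (d n : ℕ) (p q : Fin n → EuclideanSpace ℝ (Fin d)) (ρ : Fin n → ℝ)
    (hρ : ∀ i, 0 < ρ i) (hpq : ∀ i j, dist (q i) (q j) ≤ dist (p i) (p j))
    (h : d ≤ 2 ∨ n ≤ d + 3 ∨
      Module.finrank ℝ (vectorSpan ℝ (Set.range fun i => (p i, q i))) ≤ d + 2 ∨
      LiftedMotion p q)
    (τ : Fin n → ℝ) (hτ : Antitone τ) :
    ∑ k : Fin n, τ k *
        (MeasureTheory.volume
          {x : EuclideanSpace ℝ (Fin d) |
            k.val + 1 ≤ (Finset.univ.filter (fun i => dist x (q i) ≤ ρ i)).card}).toReal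
      ≤
    ∑ k : Fin n, τ k *
        (MeasureTheory.volume
          {x : EuclideanSpace ℝ (Fin d) |
            k.val + 1 ≤ (Finset.univ.filter (fun i => dist x (p i) ≤ ρ i)).card}).toReal :=
  Pool.Agent.H65k.kneser_main d n p q ρ hρ hpq h τ hτ

end Pool.Agent.Results.MP_9d526a_co.JointRank
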