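import Pool.Agent.H97.PK.All3

set_option autoImplicit false

namespace Pool.Agent.Results.MP_9d526a_co.LinearFactor

/-- Kneser's weighted multiplicity inequality holds up to the factor
`224 d (1 + 9 log (min R (4 d)))` for all contractions of ball systems whose radii have ratio at
most `R`, and all nonnegative non-increasing weights. -/
theorem result (d n : ℕ) (hd : 1 ≤ d) (p q : Fin n → EuclideanSpace ℝ (Fin d)) (ρ : Fin n → ℝ)
    (hρ : ∀ i, 0 < ρ i) (R : ℝ) (hR : ∀ i j, ρ i ≤ R * ρ j)
    (hpq : ∀ i j, dist (q i) (q j) ≤ dist (p i) (p j))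
    (τ : Fin n → ℝ) (hτ : Antitone τ) (hτ0 : ∀ k, 0 ≤ τ k) :
    ∑ k : Fin n, τ k *
        (MeasureTheory.volume
          {x : EuclideanSpace ℝ (Fin d) |
            k.val + 1 ≤ (Finset.univ.filter (fun i => dist x (q i) ≤ ρ i)).card}).toReal
      ≤ 224 * (d : ℝ) * (1 + 9 * Real.log (min R (4 * d))) *
    ∑ k : Fin n, τ k *
        (MeasureTheory.volume
          {x : EuclideanSpace ℝ (Fin d) |
            k.val + 1 ≤ (Finset.univ.filter (fun i => dist x (p i) ≤ ρ i)).card}).toReal :=
  Pool.Agent.H97.PK.All3.main_linear d n hd p q ρ hρ R hR hpq τ hτ hτ0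

end Pool.Agent.Results.MP_9d526a_co.LinearFactor
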