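import Pool.Agent.H34.KN.Final

set_option autoImplicit false

namespace Pool.Agent.Results.MP_9d526a_co.StrongContraction

/-- Kneser's weighted multiplicity inequality for balls of equal radii and all strong contractions:
it holds if the Lipschitz constant `c` of `p_i ↦ q_i` is at most `1/2` (any dimension), at most
`0.838` in `ℝ^3`, and in general if `c^d Γ((d+j)/2+1) ≤ Γ(d/2+1) Γ(j/2+1)`, where `d + 2 + j` bounds
the dimension of the affine span of the points `(p_i, q_i)` (for `j = d - 2` it always does). -/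
theorem result (d n : ℕ) (p q : Fin n → EuclideanSpace ℝ (Fin d)) (r c : ℝ) (hr : 0 < r)
    (hc : 0 < c) (hpq : ∀ i j, dist (q i) (q j) ≤ c * dist (p i) (p j))
    (h : c ≤ 1 / 2 ∨ (d = 3 ∧ c ≤ 0.838) ∨ ∃ j : ℕ,
      Module.finrank ℝ (vectorSpan ℝ (Set.range fun i => (p i, q i))) ≤ d + 2 + j ∧
      c ^ d * Real.Gamma (((d : ℝ) + j) / 2 + 1) ≤
        Real.Gamma ((d : ℝ) / 2 + 1) * Real.Gamma ((j : ℝ) / 2 + 1))
    (τ : Fin n → ℝ) (hτ : Antitone τ) :
    ∑ k : Fin n, τ k *
        (MeasureTheory.volume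
          {x : EuclideanSpace ℝ (Fin d) |
            k.val + 1 ≤ (Finset.univ.filter (fun i => dist x (q i) ≤ r)).card}).toReal
      ≤
    ∑ k : Fin n, τ k *
        (MeasureTheory.volume
          {x : EuclideanSpace ℝ (Fin d) |
            k.val + 1 ≤ (Finset.univ.filter (fun i => dist x (p i) ≤ r)).card}).toReal :=
  Pool.Agent.H34.KN.strong_main d n p q r c hr hc hpq h τ hτ

end Pool.Agent.Results.MP_9d526a_co.StrongContraction
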